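import Pool.Agent.Run7.h847.EQ.Core

/-!
# Groups over which every equation is soluble: left orderable groups

Every equation (and every power of it) over a group `G` with coefficients in a left orderable
subgroup is soluble over `G`, unless it is conjugate to a coefficient. In particular every left
orderable group is in the class of the problem.
-/

set_option autoImplicit false

namespace Pool.Agent.Results.MP_d45015_al.LeftOrderableCoefficients

open Monoid

/-- Let `C` be a group with a linear order invariant under left multiplication, `φ : C → G` an
injective homomorphism to an arbitrary group `G` and `w` an element of `C * ⟨x⟩` which is not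
conjugate to an element of `C`. Then for all `m ≥ 1` the group `G` embeds in the quotient of
`G * ⟨x⟩` by the normal closure of the `m`-th power of the image of `w`. -/
theorem result (C G : Type) [Group C] [Group G] [LinearOrder C]
    (hC : ∀ c a b : C, a < b → c * a < c * b) (φ : C →* G) (hφ : Function.Injective φ)
    (w : Coprod C (FreeGroup Unit))
    (hw : ∀ (g : Coprod C (FreeGroup Unit)) (c : C), w ≠ g * Coprod.inl c * g⁻¹)
    (m : ℕ) (hm : 1 ≤ m) :
    Function.Injective
      ((QuotientGroup.mk' (Subgroup.normalClosure
        ({(Coprod.map φ (MonoidHom.id (FreeGroup Unit)) w) ^ m} :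
          Set (Coprod G (FreeGroup Unit))))).comp
        (Coprod.inl : G →* Coprod G (FreeGroup Unit))) := by
  classical
  let e : C ≃* φ.range := MonoidHom.ofInjective hφ
  have h1 : ∃ _ : LinearOrder φ.range, ∀ c a b : φ.range, a < b → c * a < c * b := by
    refine ⟨LinearOrder.lift' e.symm e.symm.injective, ?_⟩
    intro c a b hab
    show e.symm (c * a) < e.symm (c * b)
    rw [map_mul, map_mul]
    exact hC _ _ _ hab
  have h2 : ∀ (g : Coprod φ.range (FreeGroup Unit)) (a : φ.range),
      Coprod.map e.toMonoidHom (MonoidHom.id (FreeGroup Unit)) w ≠ g * Coprod.inl a * g⁻¹ := by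
    intro g a h
    have h3 := congrArg (Coprod.map e.symm.toMonoidHom (MonoidHom.id (FreeGroup Unit))) h
    rw [map_mul, map_mul, map_inv, Coprod.map_apply_inl] at h3
    refine hw _ _ (Eq.trans ?_ h3)
    have h4 : (Coprod.map e.symm.toMonoidHom (MonoidHom.id (FreeGroup Unit))).comp
        (Coprod.map e.toMonoidHom (MonoidHom.id (FreeGroup Unit))) =
        MonoidHom.id (Coprod C (FreeGroup Unit)) := by
      apply Coprod.hom_ext
      · ext c
        simp
      · ext c
        simp
    exact (DFunLike.congr_fun h4 w).symm
  have h5 := Run7.h847.EQ.main (C := φ.range) h1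
    (Coprod.map e.toMonoidHom (MonoidHom.id (FreeGroup Unit)) w) h2 m hm
  have h6 : Run7.h847.EQ.io φ.range
      (Coprod.map e.toMonoidHom (MonoidHom.id (FreeGroup Unit)) w) =
      Coprod.map φ (MonoidHom.id (FreeGroup Unit)) w := by
    have h7 : (Run7.h847.EQ.io φ.range).comp
        (Coprod.map e.toMonoidHom (MonoidHom.id (FreeGroup Unit))) =
        Coprod.map φ (MonoidHom.id (FreeGroup Unit)) := by
      apply Coprod.hom_ext
      · ext c
        simp [Run7.h847.EQ.io, e]
        rfl
      · ext c
        simp [Run7.h847.EQ.io]
    exact DFunLike.congr_fun h7 w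
  rw [h6] at h5
  exact h5

end Pool.Agent.Results.MP_d45015_al.LeftOrderableCoefficients
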